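import Pool.Agent.H327R2.SC.ExpLat

set_option autoImplicit false
set_option linter.style.haveILetI false

/-!
# Algebraic translates of arbitrary points
-/

namespace Pool.Agent.Y918.AT

open Module Pool.Agent.H327R2.SC

theorem cl_exp_rat {S : Set ℂ} {a : ℂ} (h : Complex.exp a ∈ MM.closure S) (q : ℚ) :
    Complex.exp ((q : ℂ) * a) ∈ MM.closure S := by
  rw [mem_cl] at h ⊢
  have h1 : Complex.exp (q * a) ^ q.den = Complex.exp (q.num * a) := by
    rw [← Complex.exp_nat_mul]
    congr 1
    have h2 : (q.den : ℂ) * q = q.num := by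
      exact_mod_cast Rat.den_mul_eq_num q
    rw [← mul_assoc, h2]
  refine IsAlgebraic.of_pow q.den_pos ?_
  rw [h1, Complex.exp_int_mul]
  cases hm : q.num with
  | ofNat b => simpa using h.pow b
  | negSucc b =>
    rw [zpow_negSucc]
    exact (h.pow _).inv

/-- The algebraic numbers whose exponential lies in the closure of `S`. -/
noncomputable def VV (S : Set ℂ) : Submodule ℚ ℂ where
  carrier := {a | IsAlgebraic ℚ a ∧ Complex.exp a ∈ MM.closure S}
  add_mem' := by
    rintro a b ⟨ha, ha'⟩ ⟨hb, hb'⟩
    refine ⟨ha.add hb, ?_⟩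
    rw [Complex.exp_add]
    exact cl_mul ha' hb'
  zero_mem' := by
    refine ⟨isAlgebraic_zero, ?_⟩
    rw [Complex.exp_zero]
    exact cl_of_alg _ isAlgebraic_one
  smul_mem' := by
    rintro q a ⟨ha, ha'⟩
    rw [Rat.smul_def]
    refine ⟨IsAlgebraic.mul ?_ ha, cl_exp_rat ha' q⟩
    have := isAlgebraic_algebraMap (R := ℚ) (A := ℂ) q
    simpa using this

theorem mem_VV {S : Set ℂ} {a : ℂ} :
    a ∈ VV S ↔ IsAlgebraic ℚ a ∧ Complex.exp a ∈ MM.closure S := Iff.rfl

/-- Linearly independent algebraic numbers have exponentials of full rank. -/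
theorem card_le_rk {ι : Type} [Fintype ι] (α : ι → ℂ) (hα : ∀ i, IsAlgebraic ℚ (α i))
    (hli : LinearIndependent ℚ α) :
    (Fintype.card ι : ℕ∞) = rk (Set.range (fun i => Complex.exp (α i))) := by
  have h1 := lw_algInd α hα hli
  have h2 : MM.Indep (Set.range (fun i => Complex.exp (α i))) := by
    rw [AlgebraicIndependent.matroid_indep_iff]
    exact h1.coe_range
  rw [rk, h2.eRk_eq_encard, ← Set.image_univ, h1.injective.encard_image, Set.encard_univ,
    ENat.card_eq_coe_fintype_card]

theorem VV_fin (S : Set ℂ) (r : ℕ) (h : rk S ≤ r) :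
    FiniteDimensional ℚ (VV S) ∧ finrank ℚ (VV S) ≤ r := by
  have h1 : Module.rank ℚ (VV S) ≤ r := by
    apply rank_le
    intro s hs
    have h2 : LinearIndependent ℚ (fun i : s => ((i : VV S) : ℂ)) :=
      hs.map' (VV S).subtype (Submodule.ker_subtype _)
    have h3 := card_le_rk (fun i : s => ((i : VV S) : ℂ)) (fun i => (i : VV S).2.1) h2
    have h4 : rk (Set.range (fun i : s => Complex.exp ((i : VV S) : ℂ))) ≤ rk S := by
      apply rk_le_of_subset_cl
      rintro _ ⟨i, rfl⟩
      exact (i : VV S).2.2
    rw [← h3, Fintype.card_coe] at h4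
    exact_mod_cast h4.trans h
  have h2 : FiniteDimensional ℚ (VV S) := by
    rw [FiniteDimensional, ← Module.rank_lt_aleph0_iff]
    exact lt_of_le_of_lt h1 (Cardinal.natCast_lt_aleph0)
  exact ⟨h2, Module.finrank_le_of_rank_le h1⟩

/-! ### Counting -/

/-- An index of an element of a finite set. -/
noncomputable def idx (G : Finset ℂ) (a : ℂ) : ℕ := by
  classical
  exact if h : a ∈ G then (G.equivFin ⟨a, h⟩ : ℕ) else 0

theorem idx_lt {G : Finset ℂ} {a : ℂ} (h : a ∈ G) : idx G a < G.card := by
  classical
  unfold idx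
  rw [dif_pos h]
  exact (G.equivFin ⟨a, h⟩).2

theorem idx_inj {G : Finset ℂ} {a b : ℂ} (ha : a ∈ G) (hb : b ∈ G) (h : idx G a = idx G b) :
    a = b := by
  classical
  unfold idx at h
  rw [dif_pos ha, dif_pos hb] at h
  have h1 := G.equivFin.injective (Fin.ext h)
  exact congrArg Subtype.val h1

/-- Tuples with restricted coordinates. -/
theorem count {n : ℕ} (F : Finset ℂ) (c : ℕ) (S : Finset (Fin n)) (B : Finset (Fin n → ℂ))
    (hB : ∀ α ∈ B, ∀ i, α i ∈ F) (D : Fin n → (Fin n → ℂ) → Finset ℂ)
    (hdep : ∀ i α β, (∀ j < i, α j = β j) → D i α = D i β)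
    (hD : ∀ α ∈ B, ∀ i ∈ S, (D i α).card ≤ c ∧ α i ∈ D i α) :
    B.card ≤ c ^ S.card * F.card ^ (n - S.card) := by
  classical
  let code : (Fin n → ℂ) → (Fin n → ℕ) := fun α i =>
    if i ∈ S then idx (D i α) (α i) else idx F (α i)
  have h1 : B.card ≤
      (Fintype.piFinset (fun i : Fin n =>
        if i ∈ S then Finset.range c else Finset.range F.card)).card := by
    apply Finset.card_le_card_of_injOn code
    · intro α hα
      rw [Finset.mem_coe, Fintype.mem_piFinset]
      intro i
      simp only [code]
      split_ifs with hi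
      · rw [Finset.mem_range]
        exact lt_of_lt_of_le (idx_lt (hD α hα i hi).2) (hD α hα i hi).1
      · rw [Finset.mem_range]
        exact idx_lt (hB α hα i)
    · intro α hα β hβ hab
      have key : ∀ m : ℕ, ∀ i : Fin n, (i : ℕ) < m → α i = β i := by
        intro m
        induction m with
        | zero => intro i hi; omega
        | succ m ih =>
          intro i hi
          by_cases him : (i : ℕ) < m
          · exact ih i him
          · have hlt : ∀ j < i, α j = β j := fun j hj => ih j (by
              have : (j : ℕ) < i := hj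
              omega)
            have h2 := congrFun hab i
            simp only [code] at h2
            split_ifs at h2 with hiS
            · rw [hdep i β α (fun j hj => (hlt j hj).symm)] at h2
              refine idx_inj (hD α hα i hiS).2 ?_ h2
              have h3 := (hD β hβ i hiS).2
              rwa [hdep i β α (fun j hj => (hlt j hj).symm)] at h3
            · exact idx_inj (hB α hα i) (hB β hβ i) h2
      funext i
      exact key (i + 1) i (Nat.lt_succ_self _)
  refine h1.trans (le_of_eq ?_)
  rw [Fintype.card_piFinset]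
  have h2 : ∀ i : Fin n, (if i ∈ S then Finset.range c else Finset.range F.card).card =
      if i ∈ S then c else F.card := by
    intro i
    split_ifs <;> simp
  simp only [h2]
  rw [Finset.prod_ite, Finset.prod_const, Finset.prod_const]
  have h3 : Finset.univ.filter (fun i : Fin n => i ∈ S) = S := by ext i; simp
  have h4 : (Finset.univ.filter (fun i : Fin n => i ∉ S)).card = n - S.card := by
    have : Finset.univ.filter (fun i : Fin n => i ∉ S) = Sᶜ := by ext i; simp
    rw [this, Finset.card_compl, Fintype.card_fin]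
  rw [h3, h4]

/-! ### The rank -/

/-- The numbers `z` and the exponentials of the first coordinates of `z + α`. -/
def KS {n : ℕ} (z α : Fin n → ℂ) (m : ℕ) : Set ℂ :=
  Set.range z ∪ (fun j => Complex.exp (z j + α j)) '' {j : Fin n | (j : ℕ) < m}

theorem KS_succ {n : ℕ} (z α : Fin n → ℂ) (i : Fin n) :
    KS z α (i + 1) = insert (Complex.exp (z i + α i)) (KS z α i) := by
  unfold KS
  ext x
  simp only [Set.mem_union, Set.mem_range, Set.mem_image, Set.mem_ofPred_eq, Set.mem_insert_iff]
  constructor
  · rintro (h | ⟨j, hj, rfl⟩)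
    · exact Or.inr (Or.inl h)
    · rcases Nat.lt_succ_iff_lt_or_eq.1 hj with hj' | hj'
      · exact Or.inr (Or.inr ⟨j, hj', rfl⟩)
      · left
        have : j = i := Fin.ext hj'
        rw [this]
  · rintro (rfl | h | ⟨j, hj, rfl⟩)
    · exact Or.inr ⟨i, Nat.lt_succ_self _, rfl⟩
    · exact Or.inl h
    · exact Or.inr ⟨j, by omega, rfl⟩

theorem KS_subset {n : ℕ} (z α : Fin n → ℂ) (hα : ∀ i, IsAlgebraic ℚ (α i)) (m : ℕ) :
    KS z α m ⊆ MM.closure (EE (z + α)) := by
  rintro x (⟨j, rfl⟩ | ⟨j, _, rfl⟩)
  · have h1 : z j = (z + α) j - α j := by rw [Pi.add_apply]; ring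
    rw [h1]
    exact cl_sub (subset_cl _ (Or.inl ⟨j, rfl⟩)) (cl_of_alg _ (hα j))
  · exact subset_cl _ (Or.inr ⟨j, rfl⟩)

theorem KS_congr {n : ℕ} (z α β : Fin n → ℂ) (i : Fin n) (h : ∀ j < i, α j = β j) :
    KS z α i = KS z β i := by
  unfold KS
  congr 1
  apply Set.image_congr
  intro j hj
  rw [h j hj]

open Classical in
/-- The good indices increase the rank. -/
theorem rk_KS {n : ℕ} (z α : Fin n → ℂ) (m : ℕ) (hm : m ≤ n) :
    rk (Set.range z) + ((Finset.univ.filter (fun i : Fin n => (i : ℕ) < m ∧
      Complex.exp (z i + α i) ∉ MM.closure (KS z α i))).card : ℕ∞) ≤ rk (KS z α m) := by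
  induction m with
  | zero =>
    have h1 : (Finset.univ.filter (fun i : Fin n => (i : ℕ) < 0 ∧
      Complex.exp (z i + α i) ∉ MM.closure (KS z α i))) = ∅ := by
      ext i
      simp
    rw [h1, Finset.card_empty, Nat.cast_zero, add_zero]
    exact MM.eRk_mono (fun x hx => Or.inl hx)
  | succ m ih =>
    have ih := ih (by omega)
    set i : Fin n := ⟨m, by omega⟩ with hi
    have hsucc : KS z α (m + 1) = insert (Complex.exp (z i + α i)) (KS z α m) := KS_succ z α i
    by_cases hbad : Complex.exp (z i + α i) ∈ MM.closure (KS z α m)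
    · have h1 : (Finset.univ.filter (fun j : Fin n => (j : ℕ) < m + 1 ∧
          Complex.exp (z j + α j) ∉ MM.closure (KS z α j))) =
          (Finset.univ.filter (fun j : Fin n => (j : ℕ) < m ∧
          Complex.exp (z j + α j) ∉ MM.closure (KS z α j))) := by
        ext j
        simp only [Finset.mem_filter, Finset.mem_univ, true_and]
        constructor
        · rintro ⟨h2, h3⟩
          refine ⟨?_, h3⟩
          rcases Nat.lt_succ_iff_lt_or_eq.1 h2 with h4 | h4
          · exact h4
          · exfalso
            have h5 : j = i := Fin.ext h4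
            rw [h5] at h3
            exact h3 hbad
        · rintro ⟨h2, h3⟩
          exact ⟨by omega, h3⟩
      rw [h1]
      refine ih.trans ?_
      rw [hsucc]
      exact MM.eRk_mono (Set.subset_insert _ _)
    · have h1 : (Finset.univ.filter (fun j : Fin n => (j : ℕ) < m + 1 ∧
          Complex.exp (z j + α j) ∉ MM.closure (KS z α j))) =
          insert i (Finset.univ.filter (fun j : Fin n => (j : ℕ) < m ∧
          Complex.exp (z j + α j) ∉ MM.closure (KS z α j))) := by
        ext j
        simp only [Finset.mem_filter, Finset.mem_univ, true_and, Finset.mem_insert]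
        constructor
        · rintro ⟨h2, h3⟩
          rcases Nat.lt_succ_iff_lt_or_eq.1 h2 with h4 | h4
          · exact Or.inr ⟨h4, h3⟩
          · exact Or.inl (Fin.ext h4)
        · rintro (rfl | ⟨h2, h3⟩)
          · exact ⟨Nat.lt_succ_self _, hbad⟩
          · exact ⟨by omega, h3⟩
      have h2 : rk (insert (Complex.exp (z i + α i)) (KS z α m)) = rk (KS z α m) + 1 :=
        Matroid.eRk_insert_eq_add_one ⟨Set.mem_univ _, hbad⟩
      rw [h1, Finset.card_insert_of_notMem (by simp [hi]), hsucc, h2]
      push_cast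
      rw [← add_assoc]
      gcongr

/-- **The main count.** -/
theorem shift_count (n t c : ℕ) (ht0 : 1 ≤ t) (z : Fin n → ℂ)
    (ht : t = 1 ∨ (t : ℕ∞) ≤ rk (Set.range z)) (F : Finset ℂ) (hFalg : ∀ a ∈ F, IsAlgebraic ℚ a)
    (hF : ∀ V : Submodule ℚ ℂ, FiniteDimensional ℚ V → finrank ℚ V < n → ∀ a₀ : ℂ, ∀ G ⊆ F,
      (∀ a ∈ G, a - a₀ ∈ V) → G.card ≤ c)
    (B : Finset (Fin n → ℂ)) (hB : ∀ α ∈ B, (∀ i, α i ∈ F) ∧ LinearIndependent ℚ (z + α) ∧
      rk (EE (z + α)) < n) :
    B.card ≤ n.choose (t + 1) * (c ^ (t + 1) * F.card ^ (n - (t + 1))) := by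
  classical
  have hn : ∀ α ∈ B, 1 ≤ n := by
    intro α hα
    have h1 := (hB α hα).2.2
    by_contra hcon
    have : n = 0 := by omega
    subst this
    simp at h1
  by_cases hz : rk (Set.range z) = 0
  · -- all coordinates are algebraic
    have hB0 : B = ∅ := by
      rw [Finset.eq_empty_iff_forall_notMem]
      intro α hα
      obtain ⟨h1, h2, h3⟩ := hB α hα
      have hzalg : ∀ i, IsAlgebraic ℚ (z i) := by
        intro i
        have h4 : z i ∈ MM.closure ∅ := by
          have h5 : Set.range z ⊆ MM.loops := Matroid.eRk_eq_zero_iff (M := MM).1 hz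
          exact h5 ⟨i, rfl⟩
        exact alg_of_killed (fun D => kills_cl D (fun s hs => absurd hs (Set.notMem_empty s)) h4)
      have h4 := card_le_rk (z + α) (fun i => (hzalg i).add (hFalg _ (h1 i))) h2
      rw [Fintype.card_fin] at h4
      have h5 : rk (Set.range (fun i => Complex.exp ((z + α) i))) ≤ rk (EE (z + α)) :=
        MM.eRk_mono (fun x hx => Or.inr hx)
      rw [← h4] at h5
      exact absurd h3 (not_lt.2 h5)
    rw [hB0]
    simp
  · have htz : (t : ℕ∞) ≤ rk (Set.range z) := by
      rcases ht with rfl | ht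
      · exact Order.one_le_iff_ne_zero.2 hz
      · exact ht
    let bad : (Fin n → ℂ) → Finset (Fin n) := fun α =>
      Finset.univ.filter (fun i : Fin n => Complex.exp (z i + α i) ∈ MM.closure (KS z α i))
    have hbad : ∀ α ∈ B, t + 1 ≤ (bad α).card := by
      intro α hα
      obtain ⟨h1, h2, h3⟩ := hB α hα
      have h4 := rk_KS z α n le_rfl
      have h5 : rk (KS z α n) ≤ rk (EE (z + α)) :=
        rk_le_of_subset_cl (KS_subset z α (fun i => hFalg _ (h1 i)) n)
      have h6 : (Finset.univ.filter (fun i : Fin n => (i : ℕ) < n ∧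
          Complex.exp (z i + α i) ∉ MM.closure (KS z α i))).card = n - (bad α).card := by
        have h7 : (Finset.univ.filter (fun i : Fin n => (i : ℕ) < n ∧
          Complex.exp (z i + α i) ∉ MM.closure (KS z α i))) = (bad α)ᶜ := by
          ext i
          simp [bad]
        rw [h7, Finset.card_compl, Fintype.card_fin]
      rw [h6] at h4
      have h7 : (t : ℕ∞) + ((n - (bad α).card : ℕ) : ℕ∞) < n :=
        lt_of_le_of_lt ((add_le_add_left htz _).trans (h4.trans h5)) h3
      have h8 : t + (n - (bad α).card) < n := by exact_mod_cast h7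
      omega
    have hcover : B ⊆ (Finset.powersetCard (t + 1) (Finset.univ : Finset (Fin n))).biUnion
        (fun S => B.filter (fun α => S ⊆ bad α)) := by
      intro α hα
      obtain ⟨S, hS, hScard⟩ := Finset.exists_subset_card_eq (hbad α hα)
      rw [Finset.mem_biUnion]
      exact ⟨S, Finset.mem_powersetCard.2 ⟨Finset.subset_univ _, hScard⟩,
        Finset.mem_filter.2 ⟨hα, hS⟩⟩
    have hone : ∀ S ∈ Finset.powersetCard (t + 1) (Finset.univ : Finset (Fin n)),
        (B.filter (fun α => S ⊆ bad α)).card ≤ c ^ (t + 1) * F.card ^ (n - (t + 1)) := by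
      intro S hS
      have hScard := (Finset.mem_powersetCard.1 hS).2
      have h1 := count F c S (B.filter (fun α => S ⊆ bad α))
        (fun α hα => (hB α (Finset.mem_filter.1 hα).1).1)
        (fun i α => F.filter (fun a => Complex.exp (z i + a) ∈ MM.closure (KS z α i)))
        (fun i α β h => by simp only [KS_congr z α β i h])
        (by
          intro α hα i hi
          obtain ⟨hαB, hαS⟩ := Finset.mem_filter.1 hα
          obtain ⟨h1, h2, h3⟩ := hB α hαB
          have hmem : α i ∈ F.filter (fun a => Complex.exp (z i + a) ∈ MM.closure (KS z α i)) :=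
            Finset.mem_filter.2 ⟨h1 i, (Finset.mem_filter.1 (hαS hi)).2⟩
          refine ⟨?_, hmem⟩
          have h4 : rk (KS z α i) ≤ ((n - 1 : ℕ) : ℕ∞) := by
            have h5 : rk (KS z α i) ≤ rk (EE (z + α)) :=
              rk_le_of_subset_cl (KS_subset z α (fun i => hFalg _ (h1 i)) i)
            have h6 : rk (KS z α i) < (n : ℕ∞) := lt_of_le_of_lt h5 h3
            have h7 : (n : ℕ∞) = ((n - 1 : ℕ) : ℕ∞) + 1 := by
              have := hn α hαB
              have h8 : n = (n - 1) + 1 := by omega
              exact_mod_cast congrArg (fun k : ℕ => (k : ℕ∞)) h8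
            rw [h7] at h6
            exact Order.le_of_lt_add_one h6
          obtain ⟨h5, h6⟩ := VV_fin _ _ h4
          refine hF (VV (KS z α i)) h5 (by have := hn α hαB; omega) (α i) _
            (Finset.filter_subset _ _) ?_
          intro a ha
          obtain ⟨haF, ha'⟩ := Finset.mem_filter.1 ha
          refine ⟨(hFalg a haF).sub (hFalg _ (h1 i)), ?_⟩
          have h7 : Complex.exp (a - α i) =
              Complex.exp (z i + a) * (Complex.exp (z i + α i))⁻¹ := by
            rw [← Complex.exp_neg, ← Complex.exp_add]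
            congr 1
            ring
          rw [h7]
          exact cl_mul ha' (cl_inv (Finset.mem_filter.1 hmem).2))
      rwa [hScard] at h1
    calc B.card ≤ _ := Finset.card_le_card hcover
      _ ≤ ∑ S ∈ Finset.powersetCard (t + 1) (Finset.univ : Finset (Fin n)),
          (B.filter (fun α => S ⊆ bad α)).card := Finset.card_biUnion_le
      _ ≤ ∑ _S ∈ Finset.powersetCard (t + 1) (Finset.univ : Finset (Fin n)),
          (c ^ (t + 1) * F.card ^ (n - (t + 1))) := Finset.sum_le_sum hone
      _ = n.choose (t + 1) * (c ^ (t + 1) * F.card ^ (n - (t + 1))) := by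
          rw [Finset.sum_const, Finset.card_powersetCard, Finset.card_univ, Fintype.card_fin,
            smul_eq_mul]

end Pool.Agent.Y918.AT
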